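import Pool.Agent.H8.AV3.Stmts4

/-!
# Being nice is invariant under translations
-/

set_option autoImplicit false

namespace Pool.Agent.H57.AV3B

open Pool.AV3

theorem nsi_thm : Pool.AV3.NSIStmt := by
  intro R _ η f
  unfold Nice sh
  refine and_congr (imp_congr_right fun _ => not_congr ?_)
    (imp_congr_right fun h3 => not_congr ?_)
  · constructor
    · rintro ⟨x, y, l, h1, h2, h3⟩
      simp only at h1 h2 h3
      have e1 : f.1 = l ^ 2 - 3 * (x + η) := by linear_combination h1
      have e2 : f.2.1 = 3 * (x + η) ^ 2 + 2 * l * (y - l * (x + η)) := by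
        linear_combination h2 - 2 * η * e1
      refine ⟨x + η, y, l, e1, e2, ?_⟩
      linear_combination h3 - η * e2 - η ^ 2 * e1
    · rintro ⟨x, y, l, h1, h2, h3⟩
      refine ⟨x - η, y, l, ?_, ?_, ?_⟩
      · simp only
        linear_combination h1
      · simp only
        linear_combination h2 + 2 * η * h1
      · simp only
        linear_combination h3 + η * h2 + η ^ 2 * h1
  · have e : f.1 + 3 * η = f.1 := by rw [h3]; ring
    simp only [e]

end Pool.Agent.H57.AV3B
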